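import Mathlib

-- part MP_1623fe_an.Seq
section

/-!
Two lemmas on the three-term recurrence satisfied by the Fourier coefficients.
-/

namespace Pool.Agent.MP_1623fe_an

open Complex

/-- The recurrence relations. -/
structure Rec (p l b s : ℝ) (u v : ℤ → ℂ) : Prop where
  r1 : ∀ n : ℤ, I * ((n : ℂ) + p) * u n = b * v n
  r2 : ∀ n : ℤ, I * ((n : ℂ) + p + l) * v n + I * (s / 2) * (v (n - 1) + v (n + 1)) = b * u n

lemma norm_I_mul_real (x : ℝ) (z : ℂ) : ‖I * (x : ℂ) * z‖ = |x| * ‖z‖ := by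
  rw [norm_mul, norm_mul, Complex.norm_I, one_mul, Complex.norm_real, Real.norm_eq_abs]

/-- A bounded solution of the recurrence vanishing at one very negative index vanishes
at all smaller indices. -/
lemma seq_vanish (p l b s : ℝ) : ∃ N : ℤ, ∀ u v : ℤ → ℂ, Rec p l b s u v →
    (∃ M : ℝ, ∀ n, ‖v n‖ ≤ M) → v (N + 1) = 0 → ∀ n ≤ N, u n = 0 ∧ v n = 0 := by
  obtain ⟨K, hK⟩ : ∃ K : ℕ, |p| + |l| + 1 + 2 * (b ^ 2 + |s|) ≤ K := exists_nat_ge _
  refine ⟨-(K : ℤ), fun u v h hb h0 => ?_⟩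
  obtain ⟨M, hM⟩ := hb
  have hp := abs_nonneg p
  have hl := abs_nonneg l
  have hs := abs_nonneg s
  have hb2 := sq_nonneg b
  -- size of the diagonal coefficients
  have hp1 : ∀ n : ℤ, n ≤ -(K : ℤ) → 1 ≤ |(n : ℝ) + p| := by
    intro n hn
    have h1 : (n : ℝ) ≤ -(K : ℝ) := by exact_mod_cast hn
    have h2 := le_abs_self p
    rw [abs_of_nonpos (by linarith)]
    linarith
  have hq1 : ∀ n : ℤ, n ≤ -(K : ℤ) → 1 + 2 * (b ^ 2 + |s|) ≤ |(n : ℝ) + p + l| := by
    intro n hn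
    have h1 : (n : ℝ) ≤ -(K : ℝ) := by exact_mod_cast hn
    have h2 := le_abs_self p
    have h3 := le_abs_self l
    rw [abs_of_nonpos (a := (n : ℝ) + p + l) (by linarith)]
    linarith
  have hu : ∀ n : ℤ, n ≤ -(K : ℤ) → ‖u n‖ ≤ |b| * ‖v n‖ := by
    intro n hn
    have h1 := congrArg norm (h.r1 n)
    have e : I * ((n : ℂ) + p) * u n = I * (((n : ℝ) + p : ℝ) : ℂ) * u n := by push_cast; ring
    rw [e, norm_I_mul_real, norm_mul, Complex.norm_real, Real.norm_eq_abs] at h1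
    have := hp1 n hn
    have h3 := norm_nonneg (u n)
    nlinarith
  -- contraction
  have key : ∀ C : ℝ, 0 ≤ C → (∀ n ≤ -(K : ℤ), ‖v n‖ ≤ C) → ∀ n ≤ -(K : ℤ), ‖v n‖ ≤ C / 2 := by
    intro C hC hv n hn
    have h1 := h.r2 n
    have e : I * (((n : ℝ) + p + l : ℝ) : ℂ) * v n
        = b * u n - I * ((s / 2 : ℝ) : ℂ) * (v (n - 1) + v (n + 1)) := by
      push_cast; rw [← h1]; ring
    have h2 := congrArg norm e
    rw [norm_I_mul_real] at h2
    have h3 : ‖b * u n - I * ((s / 2 : ℝ) : ℂ) * (v (n - 1) + v (n + 1))‖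
        ≤ |b| * ‖u n‖ + |s / 2| * (‖v (n - 1)‖ + ‖v (n + 1)‖) := by
      refine (norm_sub_le _ _).trans ?_
      rw [norm_I_mul_real, norm_mul, Complex.norm_real, Real.norm_eq_abs]
      gcongr
      exact norm_add_le _ _
    have h4 : ‖v (n - 1)‖ ≤ C := hv _ (by omega)
    have h5 : ‖v (n + 1)‖ ≤ C := by
      rcases eq_or_lt_of_le hn with h | h
      · rw [h, h0, norm_zero]; exact hC
      · exact hv _ (by omega)
    have h6 := hu n hn
    have h7 := hv n hn
    have h8 := hq1 n hn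
    have hab := abs_nonneg b
    have h9 : |b| * ‖u n‖ ≤ b ^ 2 * C := by
      calc |b| * ‖u n‖ ≤ |b| * (|b| * C) := by
            gcongr
            exact h6.trans (by gcongr)
        _ = b ^ 2 * C := by rw [← mul_assoc, ← sq, sq_abs]
    have h10 : |s / 2| * (‖v (n - 1)‖ + ‖v (n + 1)‖) ≤ |s| * C := by
      rw [abs_div, abs_two]
      nlinarith
    have h11 : (1 + 2 * (b ^ 2 + |s|)) * ‖v n‖ ≤ (b ^ 2 + |s|) * C := by
      have := norm_nonneg (v n)
      calc (1 + 2 * (b ^ 2 + |s|)) * ‖v n‖ ≤ |(n : ℝ) + p + l| * ‖v n‖ := by gcongr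
        _ ≤ b ^ 2 * C + |s| * C := by rw [h2]; linarith
        _ = _ := by ring
    by_contra hcon
    push Not at hcon
    nlinarith
  have hM0 : 0 ≤ M := (norm_nonneg _).trans (hM 0)
  have hk : ∀ k : ℕ, ∀ n ≤ -(K : ℤ), ‖v n‖ ≤ M / 2 ^ k := by
    intro k
    induction k with
    | zero => intro n _; simpa using hM n
    | succ k ih =>
      intro n hn
      have := key (M / 2 ^ k) (by positivity) ih n hn
      rw [pow_succ, ← div_div]; exact this
  have hv0 : ∀ n ≤ -(K : ℤ), v n = 0 := by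
    intro n hn
    have ht : Filter.Tendsto (fun k : ℕ => M / 2 ^ k) Filter.atTop (nhds 0) :=
      (tendsto_pow_atTop_atTop_of_one_lt (by norm_num : (1 : ℝ) < 2)).const_div_atTop M
    exact norm_le_zero_iff.1 (ge_of_tendsto' ht fun k => hk k n hn)
  intro n hn
  refine ⟨?_, hv0 n hn⟩
  have := hu n hn
  rw [hv0 n hn, norm_zero, mul_zero] at this
  exact norm_le_zero_iff.1 this

/-- A one-sided solution with vanishing cosine moment is zero. -/
lemma seq_zero {p l b s : ℝ} (hl : 0 ≤ l) (hb : b ≠ 0) (hs : s ≠ 0) {u v : ℤ → ℂ}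
    (h : Rec p l b s u v) {N : ℤ} (h0 : ∀ n ≤ N, u n = 0 ∧ v n = 0)
    (hT : HasSum (fun n : ℤ => ((starRingEnd ℂ) (v n) * v (n - 1)).re) 0) :
    ∀ n, u n = 0 ∧ v n = 0 := by
  by_contra hcon
  push Not at hcon
  have hsC : (s : ℂ) ≠ 0 := by exact_mod_cast hs
  have hbC : (b : ℂ) ≠ 0 := by exact_mod_cast hb
  obtain ⟨m, hm, hmin⟩ := Int.exists_least_of_bdd (P := fun n => ¬ (u n = 0 ∧ v n = 0))
    ⟨N, fun z hz => by
      by_contra hlt
      exact hz (h0 z (by omega))⟩
    (by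
      obtain ⟨n, hn⟩ := hcon
      exact ⟨n, fun h => hn h.1 h.2⟩)
  have hlow : ∀ n < m, u n = 0 ∧ v n = 0 := by
    intro n hn
    by_contra hc
    have := hmin n hc
    omega
  have hvm : v m = 0 := by
    have h1 := h.r2 (m - 1)
    rw [(hlow (m - 1) (by omega)).1, (hlow (m - 1) (by omega)).2, (hlow (m - 1 - 1) (by omega)).2,
      sub_add_cancel] at h1
    have : I * (s / 2) * v m = 0 := by linear_combination h1
    simpa [hsC] using this
  have hum : u m ≠ 0 := fun h' => hm ⟨h', hvm⟩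
  have hpm : (m : ℝ) + p = 0 := by
    have h1 := h.r1 m
    rw [hvm, mul_zero] at h1
    have : (m : ℂ) + p = 0 := by simpa [hum] using h1
    exact_mod_cast this
  -- the energy identity
  set T : ℤ → ℝ := fun n => ((starRingEnd ℂ) (v n) * v (n - 1)).re with hTdef
  set E : ℤ → ℝ := fun n => ((n : ℝ) + p + l) * ‖v n‖ ^ 2 + ((n : ℝ) + p) * ‖u n‖ ^ 2 with hE
  have hET : ∀ n, E n = -(s / 2) * (T n + T (n + 1)) := by
    intro n
    have h1 := h.r1 n
    have h2 := h.r2 n
    have h1' := congrArg (starRingEnd ℂ) h1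
    simp only [map_mul, map_add, Complex.conj_I, Complex.conj_ofReal, map_intCast] at h1'
    have h3 : ((n : ℂ) + p + l) * (v n * (starRingEnd ℂ) (v n))
        + ((n : ℂ) + p) * (u n * (starRingEnd ℂ) (u n))
        = -(s / 2) * ((starRingEnd ℂ) (v n) * v (n - 1) + (starRingEnd ℂ) (v n) * v (n + 1)) := by
      have hI : I * I = -1 := Complex.I_mul_I
      linear_combination (-I * (starRingEnd ℂ) (v n)) * h2 + (I * u n) * h1'
        + (((n : ℂ) + p + l) * (v n * (starRingEnd ℂ) (v n))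
          + ((n : ℂ) + p) * (u n * (starRingEnd ℂ) (u n))
          + (s / 2) * ((starRingEnd ℂ) (v n) * v (n - 1) + (starRingEnd ℂ) (v n) * v (n + 1))) * hI
    rw [Complex.mul_conj, Complex.mul_conj, Complex.normSq_eq_norm_sq,
      Complex.normSq_eq_norm_sq] at h3
    have h4 := congrArg Complex.re h3
    have h5 : ((starRingEnd ℂ) (v n) * v (n + 1)).re = T (n + 1) := by
      simp only [hTdef, add_sub_cancel_right, Complex.mul_re, Complex.conj_re, Complex.conj_im]
      ring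
    have h6 : (-((s : ℂ) / 2) * ((starRingEnd ℂ) (v n) * v (n - 1)
        + (starRingEnd ℂ) (v n) * v (n + 1))).re = -(s / 2) * (T n + T (n + 1)) := by
      rw [← h5]
      have : -((s : ℂ) / 2) = ((-(s / 2) : ℝ) : ℂ) := by push_cast; ring
      rw [this, Complex.re_ofReal_mul, Complex.add_re]
    rw [h6] at h4
    rw [← h4]
    have : ((n : ℂ) + p + l) * ((‖v n‖ ^ 2 : ℝ) : ℂ) + ((n : ℂ) + p) * ((‖u n‖ ^ 2 : ℝ) : ℂ)
        = ((E n : ℝ) : ℂ) := by
      simp only [hE]; push_cast; ring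
    rw [this, Complex.ofReal_re]
  have hE0 : ∀ n, 0 ≤ E n := by
    intro n
    rcases lt_or_ge n m with hn | hn
    · simp [hE, (hlow n hn).1, (hlow n hn).2]
    · have h1 : (m : ℝ) ≤ n := by exact_mod_cast hn
      have h2 : 0 ≤ (n : ℝ) + p := by linarith
      simp only [hE]
      positivity
  have hsum : HasSum E 0 := by
    have h1 : HasSum (fun n : ℤ => T (n + 1)) 0 := (Equiv.addRight (1 : ℤ)).hasSum_iff.2 hT
    have h2 := (hT.add h1).mul_left (-(s / 2))
    rw [add_zero, mul_zero] at h2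
    rw [funext hET]
    exact h2
  have hEz : E (m + 1) = 0 := by
    have := (hasSum_zero_iff_of_nonneg hE0).1 hsum
    exact congrFun this (m + 1)
  have hv1 : v (m + 1) = 0 := by
    simp only [hE] at hEz
    push_cast at hEz
    have h1 : (m : ℝ) + 1 + p = 1 := by linarith
    rw [h1] at hEz
    have h2 := sq_nonneg ‖u (m + 1)‖
    have h3 := sq_nonneg ‖v (m + 1)‖
    have h4 : ‖v (m + 1)‖ ^ 2 = 0 := by nlinarith
    simpa using h4
  have h1 := h.r2 m
  rw [hvm, hv1, (hlow (m - 1) (by omega)).2] at h1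
  have : (b : ℂ) * u m = 0 := by rw [← h1]; ring
  exact hum (by simpa [hbC] using this)

end Pool.Agent.MP_1623fe_an

end

-- part MP_1623fe_an.Fourier
section

/-!
Fourier coefficients of periodic solutions of the gauged linear system.
-/

namespace Pool.Agent.MP_1623fe_an

open Complex Real MeasureTheory intervalIntegral

/-- Unnormalised Fourier coefficient on `[0, 2π]`. -/
noncomputable def coef (F : ℝ → ℂ) (n : ℤ) : ℂ :=
  ∫ τ in (0 : ℝ)..(2 * π), cexp (-(I * n * τ)) * F τ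

lemma coef_eq (F : ℝ → ℂ) (n : ℤ) :
    fourierCoeffOn (Real.two_pi_pos) F n = ((1 / (2 * π) : ℝ) : ℂ) * coef F n := by
  rw [fourierCoeffOn_eq_integral, coef, sub_zero, Complex.real_smul]
  congr 1
  refine intervalIntegral.integral_congr fun τ _ => ?_
  simp only [fourier_coe_apply, smul_eq_mul]
  congr 2
  have : (π : ℂ) ≠ 0 := by exact_mod_cast Real.pi_ne_zero
  push_cast
  field_simp

lemma parseval {F : ℝ → ℂ} (hF : Continuous F) :
    HasSum (fun n : ℤ => ‖coef F n‖ ^ 2) (2 * π * ∫ τ in (0 : ℝ)..(2 * π), ‖F τ‖ ^ 2) := by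
  have hL : MemLp F 2 (volume.restrict (Set.Ioc 0 (2 * π))) := by
    obtain ⟨C, hC⟩ := (isCompact_Icc (a := (0 : ℝ)) (b := 2 * π)).exists_bound_of_continuousOn
      hF.continuousOn
    refine MemLp.of_bound hF.aestronglyMeasurable C ?_
    rw [ae_restrict_iff' measurableSet_Ioc]
    exact Filter.Eventually.of_forall fun x hx => hC x (Set.Ioc_subset_Icc_self hx)
  have h := (hasSum_sq_fourierCoeffOn Real.two_pi_pos hL).mul_left ((2 * π) ^ 2)
  have hpi := Real.pi_pos
  have e1 : (fun n : ℤ => (2 * π) ^ 2 * ‖fourierCoeffOn Real.two_pi_pos F n‖ ^ 2)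
      = fun n : ℤ => ‖coef F n‖ ^ 2 := by
    funext n
    rw [coef_eq, norm_mul, Complex.norm_real, Real.norm_eq_abs, abs_of_pos (by positivity)]
    field_simp
  have e2 : (2 * π) ^ 2 * ((2 * π - 0)⁻¹ • ∫ τ in (0 : ℝ)..(2 * π), ‖F τ‖ ^ 2)
      = 2 * π * ∫ τ in (0 : ℝ)..(2 * π), ‖F τ‖ ^ 2 := by
    rw [sub_zero, smul_eq_mul]
    field_simp
  rw [e1, e2] at h
  exact h

lemma coef_bdd {F : ℝ → ℂ} (hF : Continuous F) : ∃ M : ℝ, ∀ n, ‖coef F n‖ ≤ M := by
  refine ⟨∫ τ in (0 : ℝ)..(2 * π), ‖F τ‖, fun n => ?_⟩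
  refine (intervalIntegral.norm_integral_le_integral_norm Real.two_pi_pos.le).trans (le_of_eq ?_)
  refine intervalIntegral.integral_congr fun τ _ => ?_
  simp only [norm_mul, Complex.norm_exp]
  simp

lemma eq_zero_of_coef {F : ℝ → ℂ} (hF : Continuous F) (h : ∀ n, coef F n = 0) : F 0 = 0 := by
  have h1 := parseval hF
  simp only [h, norm_zero, ne_eq, OfNat.ofNat_ne_zero, not_false_eq_true, zero_pow] at h1
  have h2 := h1.unique hasSum_zero
  have hpi := Real.pi_pos
  have h3 : ∫ τ in (0 : ℝ)..(2 * π), ‖F τ‖ ^ 2 = 0 := by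
    rcases mul_eq_zero.1 h2 with h | h
    · exact absurd h (by positivity)
    · exact h
  by_contra hne
  have hc : Continuous fun τ => ‖F τ‖ ^ 2 := by fun_prop
  have : 0 < ∫ τ in (0 : ℝ)..(2 * π), ‖F τ‖ ^ 2 := by
    refine intervalIntegral.integral_pos Real.two_pi_pos hc.continuousOn
      (fun x _ => by positivity) ⟨0, ⟨le_rfl, Real.two_pi_pos.le⟩, ?_⟩
    positivity
  exact this.ne' h3

lemma coef_add {F G : ℝ → ℂ} (hF : Continuous F) (hG : Continuous G) (n : ℤ) :
    coef (fun τ => F τ + G τ) n = coef F n + coef G n := by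
  unfold coef
  rw [← intervalIntegral.integral_add]
  · simp only [mul_add]
  · exact Continuous.intervalIntegrable (by fun_prop) _ _
  · exact Continuous.intervalIntegrable (by fun_prop) _ _

lemma coef_const_mul (c : ℂ) (F : ℝ → ℂ) (n : ℤ) :
    coef (fun τ => c * F τ) n = c * coef F n := by
  unfold coef
  rw [← intervalIntegral.integral_const_mul]
  refine intervalIntegral.integral_congr fun τ _ => ?_
  ring

lemma coef_exp_mul (F : ℝ → ℂ) (k n : ℤ) :
    coef (fun τ => cexp (I * k * τ) * F τ) n = coef F (n - k) := by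
  unfold coef
  refine intervalIntegral.integral_congr fun τ _ => ?_
  simp only
  rw [← mul_assoc, ← Complex.exp_add]
  congr 2
  push_cast
  ring

lemma coef_cos_mul {F : ℝ → ℂ} (hF : Continuous F) (n : ℤ) :
    coef (fun τ => (Real.cos τ : ℂ) * F τ) n = (coef F (n - 1) + coef F (n + 1)) / 2 := by
  have e : (fun τ : ℝ => (Real.cos τ : ℂ) * F τ) = fun τ : ℝ =>
      (1 / 2 : ℂ) * (cexp (I * ((1 : ℤ) : ℂ) * τ) * F τ + cexp (I * ((-1 : ℤ) : ℂ) * τ) * F τ) := by
    funext τ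
    rw [Complex.ofReal_cos, Complex.cos]
    push_cast
    ring_nf
  rw [e, coef_const_mul, coef_add (by fun_prop) (by fun_prop), coef_exp_mul, coef_exp_mul,
    sub_neg_eq_add]
  ring

lemma coef_deriv {F F' : ℝ → ℂ} (hF : ∀ τ, HasDerivAt F (F' τ) τ) (hF' : Continuous F')
    (hper : F (2 * π) = F 0) (n : ℤ) : coef F' n = I * n * coef F n := by
  have hc : Continuous F := continuous_iff_continuousAt.2 fun τ => (hF τ).continuousAt
  have hd : ∀ τ : ℝ, HasDerivAt (fun τ : ℝ => cexp (-(I * n * τ)) * F τ)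
      (cexp (-(I * n * τ)) * F' τ - I * n * (cexp (-(I * n * τ)) * F τ)) τ := by
    intro τ
    have h1 : HasDerivAt (fun τ : ℝ => -(I * n * (τ : ℂ))) (-(I * n * 1)) τ :=
      ((Complex.ofRealCLM.hasDerivAt (x := τ)).const_mul (I * n)).neg
    have h2 := (h1.cexp).mul (hF τ)
    refine h2.congr_deriv ?_
    ring
  have h3 := intervalIntegral.integral_eq_sub_of_hasDerivAt (a := 0) (b := 2 * π)
    (fun τ _ => hd τ) (Continuous.intervalIntegrable (by fun_prop) _ _)
  have h4 : cexp (-(I * n * ((2 * π : ℝ) : ℂ))) = 1 := by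
    have := Complex.exp_int_mul_two_pi_mul_I (-n)
    rw [← this]
    congr 1
    push_cast
    ring
  rw [h4, hper, intervalIntegral.integral_sub (Continuous.intervalIntegrable (by fun_prop) _ _)
    (Continuous.intervalIntegrable (by fun_prop) _ _), intervalIntegral.integral_const_mul] at h3
  simp only [Complex.ofReal_zero, mul_zero, neg_zero, Complex.exp_zero, sub_self] at h3
  unfold coef
  linear_combination h3

lemma hasSum_shift {V : ℝ → ℂ} (hV : Continuous V)
    (h : ∫ τ in (0 : ℝ)..(2 * π), ‖V τ‖ ^ 2 * Real.cos τ = 0) :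
    HasSum (fun n : ℤ => ((starRingEnd ℂ) (coef V n) * coef V (n - 1)).re) 0 := by
  have h1 := parseval hV
  have h2 : HasSum (fun n : ℤ => ‖coef V (n - 1)‖ ^ 2)
      (2 * π * ∫ τ in (0 : ℝ)..(2 * π), ‖V τ‖ ^ 2) := (Equiv.subRight (1 : ℤ)).hasSum_iff.2 h1
  have h3 := parseval (F := fun τ => V τ + cexp (I * ((1 : ℤ) : ℂ) * τ) * V τ) (by fun_prop)
  simp only [coef_add hV (show Continuous fun τ : ℝ => cexp (I * ((1 : ℤ) : ℂ) * τ) * V τ by
    fun_prop), coef_exp_mul] at h3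
  have h4 : ∫ τ in (0 : ℝ)..(2 * π), ‖V τ + cexp (I * ((1 : ℤ) : ℂ) * τ) * V τ‖ ^ 2
      = 2 * ∫ τ in (0 : ℝ)..(2 * π), ‖V τ‖ ^ 2 := by
    have : ∀ τ : ℝ, ‖V τ + cexp (I * ((1 : ℤ) : ℂ) * τ) * V τ‖ ^ 2
        = 2 * ‖V τ‖ ^ 2 + 2 * (‖V τ‖ ^ 2 * Real.cos τ) := by
      intro τ
      have e : V τ + cexp (I * ((1 : ℤ) : ℂ) * τ) * V τ = (1 + cexp (τ * I)) * V τ := by
        push_cast; ring_nf
      rw [e, norm_mul, mul_pow, Complex.sq_norm (1 + cexp (τ * I)), Complex.normSq_apply]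
      simp only [Complex.add_re, Complex.one_re, Complex.exp_ofReal_mul_I_re, Complex.add_im,
        Complex.one_im, Complex.exp_ofReal_mul_I_im]
      have := Real.sin_sq_add_cos_sq τ
      linear_combination ‖V τ‖ ^ 2 * this
    simp only [this]
    rw [intervalIntegral.integral_add (Continuous.intervalIntegrable (by fun_prop) _ _)
      (Continuous.intervalIntegrable (by fun_prop) _ _), intervalIntegral.integral_const_mul,
      intervalIntegral.integral_const_mul, h]
    ring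
  rw [h4] at h3
  have h5 := ((h3.sub h1).sub h2).mul_left (1 / 2)
  have e1 : (fun n : ℤ => 1 / 2 * (‖coef V n + coef V (n - 1)‖ ^ 2 - ‖coef V n‖ ^ 2
      - ‖coef V (n - 1)‖ ^ 2)) = fun n : ℤ => ((starRingEnd ℂ) (coef V n) * coef V (n - 1)).re := by
    funext n
    simp only [Complex.sq_norm, Complex.normSq_apply, Complex.add_re, Complex.add_im,
      Complex.mul_re, Complex.conj_re, Complex.conj_im]
    ring
  rw [e1] at h5
  have e2 : 1 / 2 * (2 * π * (2 * ∫ τ in (0 : ℝ)..(2 * π), ‖V τ‖ ^ 2)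
      - 2 * π * (∫ τ in (0 : ℝ)..(2 * π), ‖V τ‖ ^ 2)
      - 2 * π * ∫ τ in (0 : ℝ)..(2 * π), ‖V τ‖ ^ 2) = 0 := by ring
  rw [e2] at h5
  exact h5

/-- A `2π`-periodic solution of the gauged system. -/
structure PerSol (p l b s : ℝ) (U V : ℝ → ℂ) : Prop where
  dU : ∀ τ, HasDerivAt U (-(I * p) * U τ + b * V τ) τ
  dV : ∀ τ, HasDerivAt V (b * U τ + (-(I * (p + l)) * V τ + -(I * s) * ((Real.cos τ : ℂ) * V τ))) τ
  pU : U (2 * π) = U 0
  pV : V (2 * π) = V 0

lemma PerSol.contU {p l b s : ℝ} {U V : ℝ → ℂ} (h : PerSol p l b s U V) : Continuous U :=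
  continuous_iff_continuousAt.2 fun τ => (h.dU τ).continuousAt

lemma PerSol.contV {p l b s : ℝ} {U V : ℝ → ℂ} (h : PerSol p l b s U V) : Continuous V :=
  continuous_iff_continuousAt.2 fun τ => (h.dV τ).continuousAt

lemma PerSol.rec' {p l b s : ℝ} {U V : ℝ → ℂ} (h : PerSol p l b s U V) :
    Rec p l b s (coef U) (coef V) := by
  have hU := h.contU
  have hV := h.contV
  constructor
  · intro n
    have h1 := coef_deriv h.dU (by fun_prop) h.pU n
    rw [coef_add (by fun_prop) (by fun_prop), coef_const_mul, coef_const_mul] at h1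
    linear_combination -h1
  · intro n
    have h1 := coef_deriv h.dV (by fun_prop) h.pV n
    rw [coef_add (by fun_prop) (by fun_prop), coef_add (by fun_prop) (by fun_prop), coef_const_mul,
      coef_const_mul, coef_const_mul, coef_cos_mul hV] at h1
    linear_combination -h1

lemma PerSol.comb {p l b s : ℝ} {U V U' V' : ℝ → ℂ} (h : PerSol p l b s U V)
    (h' : PerSol p l b s U' V') (c c' : ℂ) :
    PerSol p l b s (fun τ => c * U τ + c' * U' τ) (fun τ => c * V τ + c' * V' τ) := by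
  constructor
  · intro τ
    refine (((h.dU τ).const_mul c).add ((h'.dU τ).const_mul c')).congr_deriv ?_
    ring
  · intro τ
    refine (((h.dV τ).const_mul c).add ((h'.dV τ).const_mul c')).congr_deriv ?_
    ring
  · simp only [h.pU, h'.pU]
  · simp only [h.pV, h'.pV]

/-- Two periodic solutions all of whose combinations have vanishing cosine moment are
linearly dependent. -/
theorem persol_dep {p l b s : ℝ} (hl : 0 ≤ l) (hb : b ≠ 0) (hs : s ≠ 0) {U V U' V' : ℝ → ℂ}
    (h : PerSol p l b s U V) (h' : PerSol p l b s U' V')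
    (hc : ∀ c c' : ℂ, ∫ τ in (0 : ℝ)..(2 * π), ‖c * V τ + c' * V' τ‖ ^ 2 * Real.cos τ = 0) :
    ∃ c c' : ℂ, (c ≠ 0 ∨ c' ≠ 0) ∧ c * U 0 + c' * U' 0 = 0 ∧ c * V 0 + c' * V' 0 = 0 := by
  obtain ⟨N, hN⟩ := seq_vanish p l b s
  obtain ⟨c, c', hne, h0⟩ : ∃ c c' : ℂ, (c ≠ 0 ∨ c' ≠ 0) ∧
      c * coef V (N + 1) + c' * coef V' (N + 1) = 0 := by
    by_cases h1 : coef V (N + 1) = 0
    · exact ⟨1, 0, Or.inl one_ne_zero, by simp [h1]⟩
    · exact ⟨coef V' (N + 1), -coef V (N + 1), Or.inr (neg_ne_zero.2 h1), by ring⟩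
  have hs' := h.comb h' c c'
  have hV := h.contV
  have hV' := h'.contV
  have h1 := hN _ _ hs'.rec' (coef_bdd hs'.contV) (by
    rw [coef_add (by fun_prop) (by fun_prop), coef_const_mul, coef_const_mul]; exact h0)
  have h2 := seq_zero hl hb hs hs'.rec' h1 (hasSum_shift hs'.contV (hc c c'))
  exact ⟨c, c', hne, eq_zero_of_coef hs'.contU fun n => (h2 n).1,
    eq_zero_of_coef hs'.contV fun n => (h2 n).2⟩

end Pool.Agent.MP_1623fe_an

end

-- part MP_1623fe_an.Linear
section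

/-!
The linear system attached to the Riccati form of the equation, and the main obstruction.
-/

namespace Pool.Agent.MP_1623fe_an

open Complex Real MeasureTheory intervalIntegral

/-- `y' = (i f / 2) y + (a / 2) conj y` with `f = l + s cos τ`. -/
def LinSol (a l s : ℝ) (y : ℝ → ℂ) : Prop :=
  ∀ τ, HasDerivAt y (I * ((l + s * (Real.cos τ : ℂ)) / 2) * y τ
    + (a / 2) * (starRingEnd ℂ) (y τ)) τ

lemma LinSol.cont {a l s : ℝ} {y : ℝ → ℂ} (h : LinSol a l s y) : Continuous y :=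
  continuous_iff_continuousAt.2 fun τ => (h τ).continuousAt

lemma LinSol.conj {a l s : ℝ} {y : ℝ → ℂ} (h : LinSol a l s y) (τ : ℝ) :
    HasDerivAt (fun τ => (starRingEnd ℂ) (y τ))
      (-I * ((l + s * (Real.cos τ : ℂ)) / 2) * (starRingEnd ℂ) (y τ) + (a / 2) * y τ) τ := by
  have h1 := (h τ).star
  simp only [Complex.star_def, map_add, map_mul, Complex.conj_I, map_div₀, Complex.conj_ofReal,
    Complex.conj_conj, map_ofNat] at h1
  exact h1

/-- The Wronskian is constant. -/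
lemma LinSol.wronsk {a l s : ℝ} {y z : ℝ → ℂ} (hy : LinSol a l s y) (hz : LinSol a l s z)
    (τ : ℝ) : (starRingEnd ℂ) (y τ) * z τ - y τ * (starRingEnd ℂ) (z τ)
      = (starRingEnd ℂ) (y 0) * z 0 - y 0 * (starRingEnd ℂ) (z 0) := by
  have hd : ∀ τ, HasDerivAt
      (fun τ => (starRingEnd ℂ) (y τ) * z τ - y τ * (starRingEnd ℂ) (z τ)) 0 τ := by
    intro τ
    refine (((hy.conj τ).mul (hz τ)).sub ((hy τ).mul (hz.conj τ))).congr_deriv ?_
    ring
  exact is_const_of_deriv_eq_zero (fun τ => (hd τ).differentiableAt) (fun τ => (hd τ).deriv) τ 0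

/-- Gauge factor. -/
noncomputable def gauge (s : ℝ) (r : ℤ) (τ : ℝ) : ℂ :=
  cexp (-(I * ((s * (Real.sin τ : ℂ) + r * τ) / 2)))

lemma gauge_deriv (s : ℝ) (r : ℤ) (τ : ℝ) :
    HasDerivAt (gauge s r) (gauge s r τ * -(I * ((s * (Real.cos τ : ℂ) + r) / 2))) τ := by
  have h1 : HasDerivAt (fun τ : ℝ => ((Real.sin τ : ℝ) : ℂ)) ((Real.cos τ : ℝ) : ℂ) τ :=
    (Real.hasDerivAt_sin τ).ofReal_comp
  have h2 : HasDerivAt (fun τ : ℝ => (τ : ℂ)) 1 τ := Complex.ofRealCLM.hasDerivAt
  have h3 := (((((h1.const_mul (s : ℂ)).add (h2.const_mul (r : ℂ))).div_const 2).const_mul I).neg).cexp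
  refine h3.congr_deriv ?_
  simp only [gauge, mul_one, Pi.add_apply, Pi.neg_apply]

lemma norm_gauge (s : ℝ) (r : ℤ) (τ : ℝ) : ‖gauge s r τ‖ = 1 := by
  have : -(I * ((s * (Real.sin τ : ℂ) + r * τ) / 2))
      = ((-((s * Real.sin τ + r * τ) / 2) : ℝ) : ℂ) * I := by
    push_cast; ring
  rw [gauge, this, Complex.norm_exp_ofReal_mul_I]

lemma gauge_zero (s : ℝ) (r : ℤ) : gauge s r 0 = 1 := by simp [gauge]

lemma gauge_two_pi (s : ℝ) (r : ℤ) : gauge s r (2 * π) = cexp (-(I * π * r)) := by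
  rw [gauge, Real.sin_two_pi]
  congr 1
  push_cast
  ring

lemma exp_I_pi_int_sq (r : ℤ) : cexp (I * π * r) * cexp (I * π * r) = 1 := by
  rw [← Complex.exp_add, ← Complex.exp_int_mul_two_pi_mul_I r]
  congr 1
  ring

lemma exp_neg_I_pi_int (r : ℤ) : cexp (-(I * π * r)) = cexp (I * π * r) := by
  rw [Complex.exp_neg]
  exact (eq_inv_of_mul_eq_one_left (exp_I_pi_int_sq r)).symm

lemma conj_exp_I_pi_int (r : ℤ) : (starRingEnd ℂ) (cexp (I * π * r)) = cexp (I * π * r) := by
  rw [← Complex.exp_conj, ← exp_neg_I_pi_int]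
  congr 1
  simp

lemma LinSol.perSol {a l s : ℝ} {r : ℤ} {y : ℝ → ℂ} (h : LinSol a l s y)
    (hper : y (2 * π) = cexp (I * π * r) * y 0) :
    PerSol ((r - l) / 2) l (a / 2) s (fun τ => gauge s r τ * y τ)
      (fun τ => gauge s r τ * (starRingEnd ℂ) (y τ)) := by
  constructor
  · intro τ
    refine ((gauge_deriv s r τ).mul (h τ)).congr_deriv ?_
    push_cast
    ring
  · intro τ
    refine ((gauge_deriv s r τ).mul (h.conj τ)).congr_deriv ?_
    push_cast
    ring
  · simp only [gauge_two_pi, gauge_zero, hper, exp_neg_I_pi_int]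
    rw [← mul_assoc, exp_I_pi_int_sq]
  · simp only [gauge_two_pi, gauge_zero, hper, exp_neg_I_pi_int, map_mul, conj_exp_I_pi_int]
    rw [← mul_assoc, exp_I_pi_int_sq]

theorem lin_false {a l s : ℝ} (ha : a ≠ 0) (hl : 0 ≤ l) (hs : s ≠ 0) {r : ℤ} {y z : ℝ → ℂ}
    (hy : LinSol a l s y) (hz : LinSol a l s z) (hy0 : y 0 = 1) (hz0 : z 0 = I)
    (hyp : y (2 * π) = cexp (I * π * r) * y 0) (hzp : z (2 * π) = cexp (I * π * r) * z 0)
    (m1 : ∫ τ in (0 : ℝ)..(2 * π), ‖y τ‖ ^ 2 * Real.cos τ = 0)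
    (m2 : ∫ τ in (0 : ℝ)..(2 * π), ‖z τ‖ ^ 2 * Real.cos τ = 0)
    (m3 : ∫ τ in (0 : ℝ)..(2 * π), ‖y τ + z τ‖ ^ 2 * Real.cos τ = 0) : False := by
  have cy := hy.cont
  have cz := hz.cont
  have hW : ∀ τ, (y τ).re * (z τ).im - (y τ).im * (z τ).re = 1 := by
    intro τ
    have h1 := congrArg Complex.im (hy.wronsk hz τ)
    rw [hy0, hz0] at h1
    simp only [Complex.sub_im, Complex.mul_im, Complex.conj_re, Complex.conj_im, Complex.one_re,
      Complex.one_im, Complex.I_re, Complex.I_im] at h1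
    linarith
  obtain ⟨c, c', hne, h1, h2⟩ := persol_dep hl (div_ne_zero ha two_ne_zero) hs (hy.perSol hyp)
    (hz.perSol hzp) (by
      intro c c'
      have e : ∀ τ, ‖c * (gauge s r τ * (starRingEnd ℂ) (y τ))
          + c' * (gauge s r τ * (starRingEnd ℂ) (z τ))‖ ^ 2 * Real.cos τ
          = (‖c‖ ^ 2 - (c.re * c'.re + c.im * c'.im)) * (‖y τ‖ ^ 2 * Real.cos τ)
            + (‖c'‖ ^ 2 - (c.re * c'.re + c.im * c'.im)) * (‖z τ‖ ^ 2 * Real.cos τ)
            + (c.re * c'.re + c.im * c'.im) * (‖y τ + z τ‖ ^ 2 * Real.cos τ)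
            + (-2 * (c.im * c'.re - c.re * c'.im)) * Real.cos τ := by
        intro τ
        have e1 : c * (gauge s r τ * (starRingEnd ℂ) (y τ))
            + c' * (gauge s r τ * (starRingEnd ℂ) (z τ))
            = gauge s r τ * (c * (starRingEnd ℂ) (y τ) + c' * (starRingEnd ℂ) (z τ)) := by ring
        rw [e1, norm_mul, norm_gauge, one_mul]
        simp only [Complex.sq_norm, Complex.normSq_apply, Complex.add_re, Complex.add_im,
          Complex.mul_re, Complex.mul_im, Complex.conj_re, Complex.conj_im]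
        linear_combination (-2 * (c.im * c'.re - c.re * c'.im)) * Real.cos τ * hW τ
      simp only [e]
      rw [intervalIntegral.integral_add (Continuous.intervalIntegrable (by fun_prop) _ _)
          (Continuous.intervalIntegrable (by fun_prop) _ _),
        intervalIntegral.integral_add (Continuous.intervalIntegrable (by fun_prop) _ _)
          (Continuous.intervalIntegrable (by fun_prop) _ _),
        intervalIntegral.integral_add (Continuous.intervalIntegrable (by fun_prop) _ _)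
          (Continuous.intervalIntegrable (by fun_prop) _ _),
        intervalIntegral.integral_const_mul, intervalIntegral.integral_const_mul,
        intervalIntegral.integral_const_mul, intervalIntegral.integral_const_mul, m1, m2, m3,
        integral_cos]
      simp)
  simp only [gauge_zero, hy0, hz0, one_mul, mul_one, map_one, Complex.conj_I] at h1 h2
  have hc : c = 0 := by linear_combination (h1 + h2) / 2
  have hc' : c' = 0 := by
    have : c' * I = 0 := by linear_combination (h1 - h2) / 2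
    simpa using this
  rcases hne with h | h
  · exact h hc
  · exact h hc'

/-- `φ' = -a sin φ + l + s cos τ`. -/
def Sol (a l s : ℝ) (φ : ℝ → ℝ) : Prop :=
  ∀ τ, HasDerivAt φ (-(a * Real.sin (φ τ)) + l + s * Real.cos τ) τ

lemma Sol.cont {a l s : ℝ} {φ : ℝ → ℝ} (h : Sol a l s φ) : Continuous φ :=
  continuous_iff_continuousAt.2 fun τ => (h τ).continuousAt

/-- Primitive of `cos φ`. -/
noncomputable def prim (φ : ℝ → ℝ) (τ : ℝ) : ℝ := ∫ t in (0 : ℝ)..τ, Real.cos (φ t)

lemma prim_deriv {φ : ℝ → ℝ} (h : Continuous φ) (τ : ℝ) :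
    HasDerivAt (prim φ) (Real.cos (φ τ)) τ :=
  (show Continuous fun t => Real.cos (φ t) by fun_prop).integral_hasStrictDerivAt 0 τ |>.hasDerivAt

lemma prim_zero (φ : ℝ → ℝ) : prim φ 0 = 0 := by simp [prim]

/-- The solution of the linear system attached to `φ`. -/
noncomputable def lift (a : ℝ) (φ : ℝ → ℝ) (τ : ℝ) : ℂ :=
  cexp (((a / 2 * prim φ τ : ℝ) : ℂ) + ((φ τ / 2 : ℝ) : ℂ) * I)

lemma norm_lift (a : ℝ) (φ : ℝ → ℝ) (τ : ℝ) : ‖lift a φ τ‖ ^ 2 = Real.exp (a * prim φ τ) := by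
  rw [lift, Complex.exp_add, norm_mul, Complex.norm_exp_ofReal_mul_I, mul_one,
    Complex.norm_exp_ofReal, sq, ← Real.exp_add]
  congr 1
  ring

lemma Sol.linSol {a l s : ℝ} {φ : ℝ → ℝ} (h : Sol a l s φ) : LinSol a l s (lift a φ) := by
  intro τ
  have h1 := (((prim_deriv h.cont τ).const_mul (a / 2)).ofReal_comp).add
    ((((h τ).div_const 2).ofReal_comp).mul_const I)
  refine h1.cexp.congr_deriv ?_
  have e : (starRingEnd ℂ) (lift a φ τ)
      = lift a φ τ * ((Real.cos (φ τ) : ℂ) - (Real.sin (φ τ) : ℂ) * I) := by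
    have e1 : (Real.cos (φ τ) : ℂ) - (Real.sin (φ τ) : ℂ) * I = cexp ((-(φ τ) : ℝ) * I) := by
      rw [Complex.exp_mul_I]
      push_cast
      simp only [Complex.cos_neg, Complex.sin_neg]
      ring
    rw [e1, lift, ← Complex.exp_conj, ← Complex.exp_add]
    congr 1
    simp only [map_add, map_mul, Complex.conj_ofReal, Complex.conj_I]
    push_cast
    ring
  rw [e]
  simp only [lift, Pi.add_apply]
  generalize Real.cos (φ τ) = C
  generalize Real.sin (φ τ) = S
  generalize Real.cos τ = D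
  push_cast
  ring

lemma LinSol.unique {a l s : ℝ} {y z : ℝ → ℂ} (hy : LinSol a l s y) (hz : LinSol a l s z)
    (h0 : y 0 = z 0) : y = z := by
  have hK : 0 ≤ (|l| + |s|) / 2 + |a| / 2 := by positivity
  refine ODE_solution_unique_univ (s := fun _ => Set.univ) (K := NNReal.mk _ hK) (t₀ := 0)
    (v := fun τ w => I * ((l + s * (Real.cos τ : ℂ)) / 2) * w + (a / 2) * (starRingEnd ℂ) w)
    (fun τ => ?_) (fun τ => ⟨hy τ, trivial⟩) (fun τ => ⟨hz τ, trivial⟩) h0
  refine LipschitzWith.lipschitzOnWith (LipschitzWith.of_dist_le_mul fun w w' => ?_)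
  rw [dist_eq_norm, dist_eq_norm]
  have e : I * ((l + s * (Real.cos τ : ℂ)) / 2) * w + (a / 2) * (starRingEnd ℂ) w
      - (I * ((l + s * (Real.cos τ : ℂ)) / 2) * w' + (a / 2) * (starRingEnd ℂ) w')
      = I * (((l + s * Real.cos τ) / 2 : ℝ) : ℂ) * (w - w')
        + ((a / 2 : ℝ) : ℂ) * (starRingEnd ℂ) (w - w') := by
    rw [map_sub]; push_cast; ring
  rw [e]
  refine (norm_add_le _ _).trans ?_
  rw [norm_I_mul_real, norm_mul, Complex.norm_real, Complex.norm_conj, Real.norm_eq_abs,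
    ← add_mul, NNReal.coe_mk]
  gcongr
  · rw [abs_div, abs_two]
    gcongr
    refine (abs_add_le _ _).trans ?_
    rw [abs_mul]
    have := Real.abs_cos_le_one τ
    have := abs_nonneg s
    nlinarith
  · rw [abs_div, abs_two]

lemma LinSol.add {a l s : ℝ} {y z : ℝ → ℂ} (hy : LinSol a l s y) (hz : LinSol a l s z) :
    LinSol a l s (fun τ => y τ + z τ) := by
  intro τ
  refine ((hy τ).add (hz τ)).congr_deriv ?_
  rw [map_add]
  ring

lemma LinSol.smul {a l s : ℝ} {y : ℝ → ℂ} (hy : LinSol a l s y) (c : ℝ) :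
    LinSol a l s (fun τ => c * y τ) := by
  intro τ
  refine ((hy τ).const_mul (c : ℂ)).congr_deriv ?_
  rw [map_mul, Complex.conj_ofReal]
  ring

lemma lift_zero (a : ℝ) (φ : ℝ → ℝ) : lift a φ 0 = cexp (((φ 0 / 2 : ℝ) : ℂ) * I) := by
  simp [lift, prim_zero]

lemma lift_two_pi (a : ℝ) {φ : ℝ → ℝ} {r : ℤ} (h : φ (2 * π) = φ 0 + 2 * π * r) :
    lift a φ (2 * π)
      = (Real.exp (a / 2 * prim φ (2 * π)) : ℂ) * (cexp (I * π * r) * lift a φ 0) := by
  rw [lift_zero, lift, h, Complex.ofReal_exp, ← Complex.exp_add, ← Complex.exp_add]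
  congr 1
  push_cast
  ring

/-- The main obstruction: trivial monodromy and vanishing first variation in the direction of
the amplitude are incompatible when `l ≥ 0`. -/
theorem sol_false {a l s : ℝ} (ha : a ≠ 0) (hl : 0 ≤ l) (hs : s ≠ 0) {r : ℤ} {φ : ℝ → ℝ → ℝ}
    (hφ : ∀ x, Sol a l s (φ x)) (h0 : ∀ x, φ x 0 = x)
    (hp : ∀ x, φ x (2 * π) = x + 2 * π * r)
    (hm : ∀ x, ∫ τ in (0 : ℝ)..(2 * π), Real.exp (a * prim (φ x) τ) * Real.cos τ = 0) : False := by
  have hp' : ∀ x, φ x (2 * π) = φ x 0 + 2 * π * r := fun x => by rw [h0, hp]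
  have hy := (hφ 0).linSol
  have hz := (hφ π).linSol
  have hw := (hφ (π / 2)).linSol
  have hy0 : lift a (φ 0) 0 = 1 := by simp [lift_zero, h0]
  have hz0 : lift a (φ π) 0 = I := by
    rw [lift_zero, h0, Complex.exp_mul_I, ← Complex.ofReal_cos, ← Complex.ofReal_sin,
      Real.cos_pi_div_two, Real.sin_pi_div_two]
    simp
  have hw0 : ((√2 : ℝ) : ℂ) * lift a (φ (π / 2)) 0 = 1 + I := by
    have e : π / 2 / 2 = π / 4 := by ring
    rw [lift_zero, h0, Complex.exp_mul_I, ← Complex.ofReal_cos, ← Complex.ofReal_sin, e,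
      Real.cos_pi_div_four, Real.sin_pi_div_four]
    have h2 : ((√2 : ℝ) : ℂ) * ((√2 : ℝ) : ℂ) = 2 := by
      rw [← Complex.ofReal_mul, Real.mul_self_sqrt (by norm_num)]; simp
    push_cast
    linear_combination (1 / 2 + I / 2) * h2
  have hsum : (fun τ => ((√2 : ℝ) : ℂ) * lift a (φ (π / 2)) τ)
      = fun τ => lift a (φ 0) τ + lift a (φ π) τ :=
    (hw.smul _).unique (hy.add hz) (by simp only [hw0, hy0, hz0])
  have e1 := lift_two_pi a (hp' 0)
  have e2 := lift_two_pi a (hp' π)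
  have e3 := lift_two_pi a (hp' (π / 2))
  have p1 := Real.exp_pos (a / 2 * prim (φ 0) (2 * π))
  generalize Real.exp (a / 2 * prim (φ 0) (2 * π)) = R1 at e1 p1
  generalize Real.exp (a / 2 * prim (φ π) (2 * π)) = R2 at e2
  generalize Real.exp (a / 2 * prim (φ (π / 2)) (2 * π)) = R3 at e3
  have hsq := exp_I_pi_int_sq r
  have hR : (R1 : ℂ) + R2 * I = R3 + R3 * I := by
    have h1 := congrFun hsum (2 * π)
    simp only [e1, e2, e3, hy0, hz0] at h1
    linear_combination (-cexp (I * π * r)) * h1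
      + (R3 * cexp (I * π * r) * cexp (I * π * r)) * hw0
      + (R3 * (1 + I) - R1 - R2 * I) * hsq
  have hR1 : R1 = R3 := by simpa using congrArg Complex.re hR
  have hR2 : R2 = R3 := by simpa using congrArg Complex.im hR
  have hW := hy.wronsk hz (2 * π)
  simp only [e1, e2, hy0, hz0, map_mul, Complex.conj_ofReal, conj_exp_I_pi_int, map_one,
    Complex.conj_I] at hW
  have hR12 : (R1 : ℂ) * R2 = 1 := by
    have : ((R1 : ℂ) * R2 - 1) * I = 0 := by
      linear_combination hW / 2 - (R1 * R2 * I) * hsq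
    have h2 : (R1 : ℂ) * R2 - 1 = 0 := by simpa using this
    linear_combination h2
  have hR12' : R1 * R2 = 1 := by exact_mod_cast hR12
  have hone : R1 = 1 := by
    rw [hR2, ← hR1] at hR12'
    nlinarith
  have hone2 : R2 = 1 := by rw [hR2, ← hR1, hone]
  rw [hone] at e1
  rw [hone2] at e2
  refine lin_false ha hl hs (r := r) hy hz hy0 hz0 (by simpa using e1) (by simpa using e2)
    (by simp only [norm_lift, hm]) (by simp only [norm_lift, hm]) ?_
  have e4 : ∀ τ, ‖lift a (φ 0) τ + lift a (φ π) τ‖ ^ 2 * Real.cos τ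
      = 2 * (Real.exp (a * prim (φ (π / 2)) τ) * Real.cos τ) := by
    intro τ
    rw [← congrFun hsum τ, norm_mul, mul_pow, norm_lift, Complex.norm_real, Real.norm_eq_abs,
      sq_abs, Real.sq_sqrt (by norm_num)]
    ring
  simp only [e4]
  rw [intervalIntegral.integral_const_mul, hm, mul_zero]

end Pool.Agent.MP_1623fe_an

end
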