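import Pool.Agent.MP_1623fe_an.Mg.Linear
import Pool.Agent.MP_1623fe_an.Defs

-- part MP_1623fe_an.Ode
section

/-!
Existence, uniqueness, parameter dependence and first variation for
`φ' = -a sin φ + l + s cos τ`.
-/

namespace Pool.Agent.MP_1623fe_an

open Real Set Filter Topology MeasureTheory intervalIntegral

lemma field_lip (a l s τ : ℝ) :
    LipschitzWith (NNReal.mk |a| (abs_nonneg a))
      (fun x : ℝ => -(a * Real.sin x) + l + s * Real.cos τ) := by
  refine LipschitzWith.of_dist_le_mul fun x y => ?_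
  rw [Real.dist_eq, Real.dist_eq, NNReal.coe_mk]
  have e : -(a * Real.sin x) + l + s * Real.cos τ - (-(a * Real.sin y) + l + s * Real.cos τ)
      = -(a * (Real.sin x - Real.sin y)) := by ring
  rw [e, abs_neg, abs_mul]
  exact mul_le_mul_of_nonneg_left (Real.abs_sin_sub_sin_le x y) (abs_nonneg _)

lemma field_bdd (a l s τ x : ℝ) : |-(a * Real.sin x) + l + s * Real.cos τ| ≤ |a| + |l| + |s| := by
  refine (abs_add_le _ _).trans ?_
  refine add_le_add ((abs_add_le _ _).trans (add_le_add ?_ le_rfl)) ?_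
  · rw [abs_neg, abs_mul]
    exact mul_le_of_le_one_right (abs_nonneg _) (Real.abs_sin_le_one _)
  · rw [abs_mul]
    exact mul_le_of_le_one_right (abs_nonneg _) (Real.abs_cos_le_one _)

lemma exists_sol_Ioo (a l s x : ℝ) (n : ℕ) : ∃ α : ℝ → ℝ, α 0 = x ∧
    ∀ t ∈ Ioo (-((n : ℝ) + 1)) ((n : ℝ) + 1),
      HasDerivAt α (-(a * Real.sin (α t)) + l + s * Real.cos t) t := by
  have hn : (0 : ℝ) < (n : ℝ) + 1 := by positivity
  have hL : 0 ≤ |a| + |l| + |s| := by positivity
  have hpl : IsPicardLindelof (fun τ x : ℝ => -(a * Real.sin x) + l + s * Real.cos τ)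
      (tmin := -((n : ℝ) + 1)) (tmax := (n : ℝ) + 1) ⟨0, by constructor <;> linarith⟩ x
      (NNReal.mk ((|a| + |l| + |s|) * ((n : ℝ) + 1)) (by positivity)) 0
      (NNReal.mk _ hL) (NNReal.mk |a| (abs_nonneg a)) := by
    constructor
    · exact fun t _ => (field_lip a l s t).lipschitzOnWith
    · exact fun x _ => Continuous.continuousOn (by fun_prop)
    · exact fun t _ x _ => field_bdd a l s t x
    · simp
  obtain ⟨α, h0, hα⟩ := hpl.exists_eq_forall_mem_Icc_hasDerivWithinAt₀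
  exact ⟨α, h0, fun t ht =>
    (hα t (Ioo_subset_Icc_self ht)).hasDerivAt (Icc_mem_nhds ht.1 ht.2)⟩

lemma exists_sol (a l s x : ℝ) : ∃ φ : ℝ → ℝ, Sol a l s φ ∧ φ 0 = x := by
  choose α h0 hα using exists_sol_Ioo a l s x
  have hcomp : ∀ m n : ℕ, m ≤ n → EqOn (α m) (α n) (Ioo (-((m : ℝ) + 1)) ((m : ℝ) + 1)) := by
    intro m n hmn
    have hm : (0 : ℝ) < (m : ℝ) + 1 := by positivity
    have hmn' : (m : ℝ) ≤ n := by exact_mod_cast hmn
    refine ODE_solution_unique_of_mem_Ioo (s := fun _ => univ) (t₀ := 0)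
      (v := fun τ x : ℝ => -(a * Real.sin x) + l + s * Real.cos τ)
      (fun t _ => (field_lip a l s t).lipschitzOnWith) ⟨by linarith, hm⟩
      (fun t ht => ⟨hα m t ht, trivial⟩)
      (fun t ht => ⟨hα n t ⟨by linarith [ht.1], by linarith [ht.2]⟩, trivial⟩) ?_
    rw [h0, h0]
  have hmem : ∀ t : ℝ, t ∈ Ioo (-((⌈|t|⌉₊ : ℝ) + 1)) ((⌈|t|⌉₊ : ℝ) + 1) := by
    intro t
    have h1 := Nat.le_ceil |t|
    have h2 := le_abs_self t
    have h3 := neg_abs_le t
    constructor <;> linarith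
  have hall : ∀ (n : ℕ), ∀ t ∈ Ioo (-((n : ℝ) + 1)) ((n : ℝ) + 1), α ⌈|t|⌉₊ t = α n t := by
    intro n t ht
    rcases le_total ⌈|t|⌉₊ n with h | h
    · exact hcomp _ _ h (hmem t)
    · exact (hcomp _ _ h ht).symm
  refine ⟨fun t => α ⌈|t|⌉₊ t, fun t => ?_, h0 _⟩
  refine (hα _ t (hmem t)).congr_of_eventuallyEq ?_
  filter_upwards [Ioo_mem_nhds (hmem t).1 (hmem t).2] with u hu
  exact hall _ u hu

lemma Sol.unique {a l s : ℝ} {φ ψ : ℝ → ℝ} (hφ : Sol a l s φ) (hψ : Sol a l s ψ)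
    (h0 : φ 0 = ψ 0) : φ = ψ :=
  ODE_solution_unique_univ (s := fun _ => univ) (t₀ := 0)
    (v := fun τ x : ℝ => -(a * Real.sin x) + l + s * Real.cos τ)
    (fun t => (field_lip a l s t).lipschitzOnWith) (fun τ => ⟨hφ τ, trivial⟩)
    (fun τ => ⟨hψ τ, trivial⟩) h0

/-- A solution closing up after one period has rotation number `r`. -/
lemma Sol.tendsto_of_per {a l s : ℝ} {φ : ℝ → ℝ} (hφ : Sol a l s φ) {r : ℝ}
    (hr : ∃ k : ℤ, r = k) (hp : φ (2 * π) = φ 0 + 2 * π * r) :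
    Tendsto (fun τ => φ τ / τ) atTop (𝓝 r) := by
  obtain ⟨k, rfl⟩ := hr
  have hψ : Sol a l s (fun τ => φ (τ + 2 * π) - k * (2 * π)) := by
    intro τ
    have h1 := ((hφ (τ + 2 * π)).comp_add_const τ (2 * π)).sub_const (k * (2 * π))
    rw [Real.cos_add_two_pi] at h1
    simp only [Real.sin_sub_int_mul_two_pi]
    exact h1
  have he := hψ.unique hφ (by simp only [zero_add, hp]; ring)
  have hper : Function.Periodic (fun τ => φ τ - k * τ) (2 * π) := by
    intro τ
    have := congrFun he τ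
    simp only at this ⊢
    rw [← this]
    ring
  have hc := hφ.cont
  obtain ⟨C, hC⟩ := (hper.isBounded_of_continuous Real.two_pi_pos.ne'
    (by fun_prop)).exists_norm_le
  have h1 : Tendsto (fun τ => (φ τ - k * τ) * τ⁻¹) atTop (𝓝 0) :=
    (show IsBoundedUnder (· ≤ ·) atTop (norm ∘ fun τ => φ τ - k * τ) from
      isBoundedUnder_of ⟨C, fun τ => hC _ ⟨τ, rfl⟩⟩) |>
      fun hb => NormedField.tendsto_zero_smul_of_tendsto_zero_of_bounded
        tendsto_inv_atTop_zero hb |>.congr fun τ => by simp [mul_comm]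
  have h2 := h1.add_const (k : ℝ)
  rw [zero_add] at h2
  refine h2.congr' ?_
  filter_upwards [eventually_gt_atTop 0] with τ hτ
  field_simp
  ring

/-- A priori bound on the increment of a solution. -/
lemma Sol.incr {a l s : ℝ} {φ : ℝ → ℝ} (hφ : Sol a l s φ) {τ : ℝ} (hτ : 0 ≤ τ) :
    |φ τ - φ 0 - l * τ - s * Real.sin τ| ≤ |a| * τ := by
  have hd : ∀ t, HasDerivAt (fun t => φ t - l * t - s * Real.sin t) (-(a * Real.sin (φ t))) t := by
    intro t
    refine (((hφ t).sub ((hasDerivAt_id t).const_mul l)).sub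
      ((Real.hasDerivAt_sin t).const_mul s)).congr_deriv ?_
    ring
  have h1 := norm_image_sub_le_of_norm_deriv_le_segment' (a := 0) (b := τ)
    (f := fun t => φ t - l * t - s * Real.sin t) (f' := fun t => -(a * Real.sin (φ t))) (C := |a|)
    (fun t _ => (hd t).hasDerivWithinAt) (fun t _ => by
      rw [Real.norm_eq_abs, abs_neg, abs_mul]
      exact mul_le_of_le_one_right (abs_nonneg _) (Real.abs_sin_le_one _)) τ ⟨hτ, le_rfl⟩
  simp only [Real.norm_eq_abs, mul_zero, sub_zero, Real.sin_zero] at h1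
  have e : φ τ - φ 0 - l * τ - s * Real.sin τ = φ τ - l * τ - s * Real.sin τ - φ 0 := by ring
  rw [e]
  exact h1

lemma Sol.rot_bound {a l s : ℝ} {φ : ℝ → ℝ} (hφ : Sol a l s φ) {r : ℝ}
    (h : Tendsto (fun τ => φ τ / τ) atTop (𝓝 r)) : |r - l| ≤ |a| := by
  have h1 : Tendsto (fun τ => |φ τ / τ - l|) atTop (𝓝 |r - l|) := (h.sub_const l).abs
  have h2 : Tendsto (fun τ : ℝ => |a| + (|φ 0| + |s|) / τ) atTop (𝓝 (|a| + 0)) :=
    (tendsto_id.const_div_atTop _).const_add _
  rw [add_zero] at h2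
  refine le_of_tendsto_of_tendsto h1 h2 ?_
  filter_upwards [eventually_gt_atTop 0] with τ hτ
  have h3 := hφ.incr hτ.le
  have e : φ τ / τ - l = ((φ τ - φ 0 - l * τ - s * Real.sin τ) + φ 0 + s * Real.sin τ) / τ := by
    field_simp; ring
  have h4 : |s * Real.sin τ| ≤ |s| := by
    rw [abs_mul]; exact mul_le_of_le_one_right (abs_nonneg _) (Real.abs_sin_le_one _)
  have h5 := abs_add_three (φ τ - φ 0 - l * τ - s * Real.sin τ) (φ 0) (s * Real.sin τ)
  rw [e, abs_div, abs_of_pos hτ, div_le_iff₀ hτ, add_mul, div_mul_cancel₀ _ hτ.ne']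
  linarith

/-- Gronwall estimate for the dependence on the parameters. -/
lemma Sol.gronwall {a : ℝ} (ha : 0 < a) : ∃ K : ℝ, 0 ≤ K ∧ ∀ (l s l' s' : ℝ) (φ ψ : ℝ → ℝ),
    Sol a l s φ → Sol a l' s' ψ → φ 0 = ψ 0 →
      ∀ τ ∈ Icc 0 (2 * π), |φ τ - ψ τ| ≤ K * (|l - l'| + |s - s'|) := by
  refine ⟨Real.exp (a * (2 * π)) / a, by positivity, fun l s l' s' φ ψ hφ hψ h0 τ hτ => ?_⟩
  have h1 := norm_le_gronwallBound_of_norm_deriv_right_le (f := fun t => φ t - ψ t)
    (f' := fun t => -(a * Real.sin (φ t)) + l + s * Real.cos t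
      - (-(a * Real.sin (ψ t)) + l' + s' * Real.cos t))
    (δ := 0) (K := a) (ε := |l - l'| + |s - s'|) (a := 0) (b := 2 * π)
    (hφ.cont.sub hψ.cont).continuousOn
    (fun t _ => ((hφ t).sub (hψ t)).hasDerivWithinAt) (by simp [h0]) (fun t _ => by
      have e : -(a * Real.sin (φ t)) + l + s * Real.cos t
          - (-(a * Real.sin (ψ t)) + l' + s' * Real.cos t)
          = -(a * (Real.sin (φ t) - Real.sin (ψ t))) + (l - l') + (s - s') * Real.cos t := by ring
      rw [Real.norm_eq_abs, Real.norm_eq_abs, e]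
      refine (abs_add_three _ _ _).trans ?_
      have h2 : |-(a * (Real.sin (φ t) - Real.sin (ψ t)))| ≤ a * |φ t - ψ t| := by
        rw [abs_neg, abs_mul, abs_of_pos ha]
        exact mul_le_mul_of_nonneg_left (Real.abs_sin_sub_sin_le _ _) ha.le
      have h3 : |(s - s') * Real.cos t| ≤ |s - s'| := by
        rw [abs_mul]; exact mul_le_of_le_one_right (abs_nonneg _) (Real.abs_cos_le_one _)
      linarith) τ hτ
  rw [gronwallBound_of_K_ne_0 ha.ne', Real.norm_eq_abs] at h1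
  simp only [zero_mul, zero_add, sub_zero] at h1
  refine h1.trans ?_
  have h2 : Real.exp (a * τ) ≤ Real.exp (a * (2 * π)) := by gcongr; exact hτ.2
  have h3 : 0 ≤ (|l - l'| + |s - s'|) / a := by positivity
  calc (|l - l'| + |s - s'|) / a * (Real.exp (a * τ) - 1)
      ≤ (|l - l'| + |s - s'|) / a * Real.exp (a * (2 * π)) := by gcongr; linarith
    _ = _ := by ring

lemma sin_taylor (x y : ℝ) : |Real.sin y - Real.sin x - Real.cos x * (y - x)| ≤ (y - x) ^ 2 := by
  have hd : ∀ t, HasDerivAt (fun t => Real.sin t - Real.cos x * t) (Real.cos t - Real.cos x) t := by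
    intro t
    refine ((Real.hasDerivAt_sin t).sub ((hasDerivAt_id t).const_mul _)).congr_deriv ?_
    ring
  have h1 := (convex_uIcc x y).norm_image_sub_le_of_norm_hasDerivWithin_le
    (f := fun t => Real.sin t - Real.cos x * t) (f' := fun t => Real.cos t - Real.cos x)
    (C := |y - x|) (fun t _ => (hd t).hasDerivWithinAt) (fun t ht => by
      rw [Real.norm_eq_abs]
      exact (Real.abs_cos_sub_cos_le t x).trans (abs_sub_left_of_mem_uIcc ht))
    left_mem_uIcc right_mem_uIcc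
  simp only [Real.norm_eq_abs] at h1
  rw [← sq, sq_abs] at h1
  have e : Real.sin y - Real.sin x - Real.cos x * (y - x)
      = Real.sin y - Real.cos x * y - (Real.sin x - Real.cos x * x) := by ring
  rw [e]
  exact h1

/-- First variation formula with a quadratic remainder. -/
lemma Sol.variation {a l s : ℝ} (ha : 0 < a) {φ : ℝ → ℝ} (hφ : Sol a l s φ) :
    ∃ C : ℝ, ∀ (l' s' : ℝ) (ψ : ℝ → ℝ), Sol a l' s' ψ → ψ 0 = φ 0 →
      |Real.exp (a * prim φ (2 * π)) * (ψ (2 * π) - φ (2 * π))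
        - (l' - l) * (∫ τ in (0 : ℝ)..(2 * π), Real.exp (a * prim φ τ))
        - (s' - s) * (∫ τ in (0 : ℝ)..(2 * π), Real.exp (a * prim φ τ) * Real.cos τ)|
        ≤ C * (|l' - l| + |s' - s|) ^ 2 := by
  obtain ⟨K, hK, hG⟩ := Sol.gronwall ha
  have cφ := hφ.cont
  have cP : Continuous (prim φ) :=
    continuous_iff_continuousAt.2 fun τ => (prim_deriv cφ τ).continuousAt
  obtain ⟨M, hM⟩ := (isCompact_Icc (a := (0 : ℝ)) (b := 2 * π)).exists_bound_of_continuousOn
    (f := fun τ => Real.exp (a * prim φ τ)) (Continuous.continuousOn (by fun_prop))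
  refine ⟨M * a * K ^ 2 * |2 * π - 0|, fun l' s' ψ hψ h0 => ?_⟩
  have cψ := hψ.cont
  have hd : ∀ τ, HasDerivAt (fun τ => Real.exp (a * prim φ τ) * (ψ τ - φ τ))
      (-(Real.exp (a * prim φ τ) * a
          * (Real.sin (ψ τ) - Real.sin (φ τ) - Real.cos (φ τ) * (ψ τ - φ τ)))
        + (l' - l) * Real.exp (a * prim φ τ)
        + (s' - s) * (Real.exp (a * prim φ τ) * Real.cos τ)) τ := by
    intro τ
    refine ((((prim_deriv cφ τ).const_mul a).exp).mul ((hψ τ).sub (hφ τ))).congr_deriv ?_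
    simp only [Pi.sub_apply]
    ring
  have h1 := intervalIntegral.integral_eq_sub_of_hasDerivAt (a := 0) (b := 2 * π)
    (fun τ _ => hd τ) (Continuous.intervalIntegrable (by fun_prop) _ _)
  rw [intervalIntegral.integral_add (Continuous.intervalIntegrable (by fun_prop) _ _)
      (Continuous.intervalIntegrable (by fun_prop) _ _),
    intervalIntegral.integral_add (Continuous.intervalIntegrable (by fun_prop) _ _)
      (Continuous.intervalIntegrable (by fun_prop) _ _),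
    intervalIntegral.integral_const_mul, intervalIntegral.integral_const_mul, h0, sub_self,
    mul_zero, sub_zero] at h1
  rw [← h1]
  have h2 := intervalIntegral.norm_integral_le_of_norm_le_const (a := 0) (b := 2 * π)
    (f := fun τ => -(Real.exp (a * prim φ τ) * a
          * (Real.sin (ψ τ) - Real.sin (φ τ) - Real.cos (φ τ) * (ψ τ - φ τ))))
    (C := M * a * (K * (|l' - l| + |s' - s|)) ^ 2) (by
      intro τ hτ
      rw [uIoc_of_le Real.two_pi_pos.le] at hτ
      have hτ' := Ioc_subset_Icc_self hτ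
      have h3 := hG l' s' l s ψ φ hψ hφ h0 τ hτ'
      have h4 := sin_taylor (φ τ) (ψ τ)
      have h5 := hM τ hτ'
      have h6 : (ψ τ - φ τ) ^ 2 ≤ (K * (|l' - l| + |s' - s|)) ^ 2 := by
        rw [← sq_abs (ψ τ - φ τ)]
        gcongr
      have hM0 : 0 ≤ M := (norm_nonneg _).trans h5
      rw [norm_neg, norm_mul, norm_mul, Real.norm_eq_abs a, abs_of_pos ha, Real.norm_eq_abs
        (Real.sin (ψ τ) - _ - _)]
      gcongr
      exact h4.trans h6)
  rw [Real.norm_eq_abs] at h2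
  calc _ = |∫ τ in (0 : ℝ)..(2 * π), -(Real.exp (a * prim φ τ) * a
          * (Real.sin (ψ τ) - Real.sin (φ τ) - Real.cos (φ τ) * (ψ τ - φ τ)))| := by
        congr 1; ring
    _ ≤ _ := h2
    _ = _ := by ring

end Pool.Agent.MP_1623fe_an

end

-- part MP_1623fe_an.Main
section

/-!
At an adjacency with `B₀ ≥ 0` the left boundary curve is not tangent to the vertical line.
-/

namespace Pool.Agent.MP_1623fe_an

open Real Set Filter Topology MeasureTheory intervalIntegral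

lemma isSolution_iff {ω B A : ℝ} {φ : ℝ → ℝ} :
    IsSolution ω B A φ ↔ Sol (1 / ω) (B / ω) (A / ω) φ := by
  refine forall_congr' fun τ => ?_
  have e : (-Real.sin (φ τ) + B + A * Real.cos τ) / ω
      = -(1 / ω * Real.sin (φ τ)) + B / ω + A / ω * Real.cos τ := by ring
  rw [e]

/-- The solution with initial value `x`. -/
noncomputable def flow (ω B A x : ℝ) : ℝ → ℝ := (exists_sol (1 / ω) (B / ω) (A / ω) x).choose

lemma flow_sol (ω B A x : ℝ) : Sol (1 / ω) (B / ω) (A / ω) (flow ω B A x) :=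
  (exists_sol (1 / ω) (B / ω) (A / ω) x).choose_spec.1

lemma flow_zero (ω B A x : ℝ) : flow ω B A x 0 = x :=
  (exists_sol (1 / ω) (B / ω) (A / ω) x).choose_spec.2

lemma flow_cont {ω : ℝ} (hω : 0 < ω) (A x : ℝ) : Continuous fun B => flow ω B A x (2 * π) := by
  obtain ⟨K, hK, hG⟩ := Sol.gronwall (a := 1 / ω) (by positivity)
  refine (LipschitzWith.of_dist_le_mul (K := NNReal.mk (K / ω) (by positivity))
    fun B B' => ?_).continuous
  have h := hG _ _ _ _ _ _ (flow_sol ω B A x) (flow_sol ω B' A x) (by simp only [flow_zero])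
    (2 * π) ⟨Real.two_pi_pos.le, le_rfl⟩
  rw [Real.dist_eq, Real.dist_eq, NNReal.coe_mk]
  refine h.trans (le_of_eq ?_)
  rw [sub_self, abs_zero, add_zero, ← sub_div, abs_div, abs_of_pos hω]
  ring

lemma mem_of_per {ω B A x : ℝ} {r : ℤ} (h : flow ω B A x (2 * π) = x + 2 * π * r) :
    (B, A) ∈ phaseLockArea ω r :=
  ⟨flow ω B A x, isSolution_iff.2 (flow_sol ω B A x),
    (flow_sol ω B A x).tendsto_of_per ⟨r, rfl⟩ (by rw [flow_zero, h])⟩

lemma slice_bound {ω : ℝ} (hω : 0 < ω) {r : ℤ} {B A : ℝ} (h : (B, A) ∈ phaseLockArea ω r) :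
    ω * r - 1 ≤ B ∧ B ≤ ω * r + 1 := by
  obtain ⟨φ, h1, h2⟩ := h
  have h3 := (isSolution_iff.1 h1).rot_bound h2
  have e : (r : ℝ) - B / ω = (ω * r - B) / ω := by field_simp
  rw [e, abs_div, abs_div, abs_one, div_le_div_iff_of_pos_right (abs_pos.2 hω.ne'), abs_le] at h3
  constructor <;> linarith [h3.1, h3.2]

lemma slice_bddBelow {ω : ℝ} (hω : 0 < ω) (r : ℤ) (A : ℝ) :
    BddBelow {B : ℝ | (B, A) ∈ phaseLockArea ω r} := ⟨_, fun _ h => (slice_bound hω h).1⟩

lemma slice_bddAbove {ω : ℝ} (hω : 0 < ω) (r : ℤ) (A : ℝ) :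
    BddAbove {B : ℝ | (B, A) ∈ phaseLockArea ω r} := ⟨_, fun _ h => (slice_bound hω h).2⟩

lemma flow_incr {ω : ℝ} (hω : 0 < ω) (B A x : ℝ) :
    |flow ω B A x (2 * π) - x - B / ω * (2 * π)| ≤ 1 / ω * (2 * π) := by
  have h := (flow_sol ω B A x).incr Real.two_pi_pos.le
  rwa [Real.sin_two_pi, mul_zero, sub_zero, flow_zero, abs_of_pos (by positivity : 0 < 1 / ω)] at h

lemma flow_low {ω : ℝ} (hω : 0 < ω) (r : ℤ) {B : ℝ} (hB : B ≤ ω * r - 1) (A x : ℝ) :
    flow ω B A x (2 * π) ≤ x + 2 * π * r := by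
  have h := (abs_le.1 (flow_incr hω B A x)).2
  have h1 : B / ω + 1 / ω ≤ r := by
    rw [← add_div, div_le_iff₀ hω]; linarith
  nlinarith [Real.pi_pos]

lemma flow_high {ω : ℝ} (hω : 0 < ω) (r : ℤ) {B : ℝ} (hB : ω * r + 1 ≤ B) (A x : ℝ) :
    x + 2 * π * r ≤ flow ω B A x (2 * π) := by
  have h := (abs_le.1 (flow_incr hω B A x)).1
  have h1 : (r : ℝ) ≤ B / ω - 1 / ω := by
    rw [← sub_div, le_div_iff₀ hω]; linarith
  nlinarith [Real.pi_pos]

/-- Left of the left boundary curve every solution lags behind. -/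
lemma flow_lt {ω : ℝ} (hω : 0 < ω) (r : ℤ) {B A : ℝ} (hB : B < gMinus ω r A) (x : ℝ) :
    flow ω B A x (2 * π) < x + 2 * π * r := by
  by_contra hcon
  push Not at hcon
  obtain ⟨B', hB', h⟩ := intermediate_value_Icc (a := min B (ω * r - 1)) (b := B) (min_le_left _ _)
    (flow_cont hω A x).continuousOn ⟨flow_low hω r (min_le_right _ _) A x, hcon⟩
  have := csInf_le (slice_bddBelow hω r A) (mem_of_per h)
  exact absurd (this.trans hB'.2) (not_le.2 hB)

/-- At an adjacency the period map is the identity. -/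
lemma flow_adj {ω : ℝ} (hω : 0 < ω) (r : ℤ) {B A : ℝ} (h1 : gMinus ω r A = B)
    (h2 : gPlus ω r A = B) (x : ℝ) : flow ω B A x (2 * π) = x + 2 * π * r := by
  obtain ⟨B', -, h⟩ := intermediate_value_Icc (a := ω * r - 1) (b := ω * r + 1) (by linarith)
    (flow_cont hω A x).continuousOn ⟨flow_low hω r le_rfl A x, flow_high hω r le_rfl A x⟩
  have h3 := csInf_le (slice_bddBelow hω r A) (mem_of_per h)
  have h4 := le_csSup (slice_bddAbove hω r A) (mem_of_per h)
  have : B' = B := le_antisymm (h4.trans_eq h2) (h1.symm.trans_le h3)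
  rw [← this]
  exact h

lemma moment_zero {ω : ℝ} (hω : 0 < ω) (r : ℤ) {B A : ℝ} (h1 : gMinus ω r A = B)
    (h2 : gPlus ω r A = B) (hd : HasDerivAt (gMinus ω r) 0 A) (x : ℝ) :
    ∫ τ in (0 : ℝ)..(2 * π), Real.exp (1 / ω * prim (flow ω B A x) τ) * Real.cos τ = 0 := by
  obtain ⟨C, hC⟩ := (flow_sol ω B A x).variation (by positivity)
  set c := ∫ τ in (0 : ℝ)..(2 * π), Real.exp (1 / ω * prim (flow ω B A x) τ) * Real.cos τ
  set I₀ := ∫ τ in (0 : ℝ)..(2 * π), Real.exp (1 / ω * prim (flow ω B A x) τ)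
  set g := gMinus ω r with hg
  -- the key inequality
  have key : ∀ t : ℝ, t ≠ 0 → t / ω * c ≤ -((g (A + t) - t ^ 2 - B) / ω * I₀)
      + C * (|(g (A + t) - t ^ 2 - B) / ω| + |t / ω|) ^ 2 := by
    intro t ht
    have h3 := hC _ _ _ (flow_sol ω (g (A + t) - t ^ 2) (A + t) x) (by simp only [flow_zero])
    have h4 := flow_lt hω r (B := g (A + t) - t ^ 2) (A := A + t)
      (by have := pow_pos (abs_pos.2 ht) 2; rw [sq_abs] at this; linarith) x
    rw [flow_adj hω r h1 h2 x, ← sub_div, ← sub_div, add_sub_cancel_left] at h3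
    have h5 := (abs_le.1 h3).1
    have h6 := Real.exp_pos (1 / ω * prim (flow ω B A x) (2 * π))
    have h7 : Real.exp (1 / ω * prim (flow ω B A x) (2 * π))
        * (flow ω (g (A + t) - t ^ 2) (A + t) x (2 * π) - (x + 2 * π * r)) < 0 :=
      mul_neg_of_pos_of_neg h6 (by linarith)
    linarith
  have hq : Tendsto (fun t => t⁻¹ * (g (A + t) - B) - t) (𝓝[≠] 0) (𝓝 0) := by
    have h3 := hasDerivAt_iff_tendsto_slope_zero.1 hd
    simp only [smul_eq_mul, h1] at h3
    have h4 : Tendsto (fun t : ℝ => t) (𝓝[≠] 0) (𝓝 0) := tendsto_nhdsWithin_of_tendsto_nhds tendsto_id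
    simpa using h3.sub h4
  have hH : Tendsto (fun t => -((t⁻¹ * (g (A + t) - B) - t) / ω * I₀)
      + C * t * (|(t⁻¹ * (g (A + t) - B) - t) / ω| + |1 / ω|) ^ 2) (𝓝[≠] 0) (𝓝 0) := by
    have h4 : Tendsto (fun t : ℝ => t) (𝓝[≠] 0) (𝓝 0) := tendsto_nhdsWithin_of_tendsto_nhds tendsto_id
    have h5 := (((hq.div_const ω).mul_const I₀).neg).add
      ((h4.const_mul C).mul ((((hq.div_const ω).abs).add_const |1 / ω|).pow 2))
    simpa using h5
  have key2 : ∀ t : ℝ, t ≠ 0 → t * (c / ω) ≤ t * (-((t⁻¹ * (g (A + t) - B) - t) / ω * I₀)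
      + C * t * (|(t⁻¹ * (g (A + t) - B) - t) / ω| + |1 / ω|) ^ 2) := by
    intro t ht
    have h3 := key t ht
    have e1 : (g (A + t) - t ^ 2 - B) / ω = t * ((t⁻¹ * (g (A + t) - B) - t) / ω) := by
      field_simp; ring
    have e2 : t / ω = t * (1 / ω) := by ring
    rw [e1, e2, abs_mul, abs_mul, ← mul_add, mul_pow, sq_abs] at h3
    calc t * (c / ω) = t * (1 / ω) * c := by ring
      _ ≤ _ := h3
      _ = _ := by ring
  have hle : c / ω ≤ 0 := by
    refine ge_of_tendsto (hH.mono_left (nhdsGT_le_nhdsNE 0)) ?_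
    filter_upwards [self_mem_nhdsWithin] with t ht
    exact le_of_mul_le_mul_left (key2 t (ne_of_gt ht)) ht
  have hge : 0 ≤ c / ω := by
    refine le_of_tendsto (hH.mono_left (nhdsLT_le_nhdsNE 0)) ?_
    filter_upwards [self_mem_nhdsWithin] with t ht
    have ht' : t < 0 := ht
    have h3 := key2 t ht'.ne
    by_contra hcon
    push Not at hcon
    exact absurd (mul_lt_mul_of_neg_left hcon ht') (not_lt.2 h3)
  have := le_antisymm hle hge
  simpa [hω.ne'] using this

theorem not_tangent {ω : ℝ} (hω : 0 < ω) (r : ℤ) {B A : ℝ} (hB : 0 ≤ B) (hA : A ≠ 0)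
    (h1 : gMinus ω r A = B) (h2 : gPlus ω r A = B) : ¬ HasDerivAt (gMinus ω r) 0 A := fun hd =>
  sol_false (a := 1 / ω) (l := B / ω) (s := A / ω) (r := r) (φ := flow ω B A) (by positivity)
    (by positivity) (div_ne_zero hA hω.ne') (flow_sol ω B A) (flow_zero ω B A)
    (flow_adj hω r h1 h2) (moment_zero hω r h1 h2 hd)

end Pool.Agent.MP_1623fe_an

end
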